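import Pool.Agent.Helper853.Df.Crit
import Pool.Agent.W722.Cq.Stm

/-! # Submean value inequality (CQ-SMC) -/

set_option autoImplicit false

open MeasureTheory Metric Set Filter Topology
open scoped ContDiff

namespace Pool.Agent.W965.CQ

open Pool.Agent.Helper853.Df

/-- the Laplacian of a quadratic form in rotated directions -/
lemma bil_rot (B : ℂ →L[ℝ] ℂ →L[ℝ] ℝ) (w : ℂ) :
    B w w + B (Complex.I * w) (Complex.I * w) =
      Complex.normSq w * (B 1 1 + B Complex.I Complex.I) := by
  have e1 : w = w.re • (1 : ℂ) + w.im • Complex.I := by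
    apply Complex.ext <;> simp
  have e2 : Complex.I * w = (-w.im) • (1 : ℂ) + w.re • Complex.I := by
    apply Complex.ext <;> simp
  rw [e2]
  have h1 : B w w = B (w.re • (1 : ℂ) + w.im • Complex.I) (w.re • (1 : ℂ) + w.im • Complex.I) := by
    rw [← e1]
  rw [h1]
  simp only [map_add, map_smul, add_apply, smul_apply, ContinuousLinearMap.add_apply,
    ContinuousLinearMap.smul_apply, smul_eq_mul]
  rw [Complex.normSq_apply]
  ring

theorem smc : Pool.Agent.W722.Cq.S_SMC := by
  intro Q hQ hLap g a s s' hs hss hg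
  set γ : ℂ → ℂ := fun ζ => g (a + s * ζ) with hγ
  set k : ℂ → ℝ := fun ζ => Q (γ ζ) with hk
  have hin : ∀ ζ : ℂ, ‖ζ‖ ≤ 1 → a + s * ζ ∈ ball a s' := by
    intro ζ hζ
    rw [mem_ball, dist_eq_norm, add_sub_cancel_left, norm_mul, Complex.norm_real,
      Real.norm_of_nonneg hs.le]
    nlinarith [norm_nonneg ζ]
  have hγd : ∀ ζ : ℂ, ‖ζ‖ ≤ 1 → DifferentiableAt ℂ γ ζ := by
    intro ζ hζ
    have h1 : DifferentiableAt ℂ g (a + s * ζ) :=
      hg.differentiableAt (isOpen_ball.mem_nhds (hin ζ hζ))
    have h2 : DifferentiableAt ℂ (fun ζ : ℂ => a + s * ζ) ζ := by fun_prop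
    exact h1.comp ζ h2
  have hkc : ContinuousOn k (closedBall 0 1) := by
    intro ζ hζ
    rw [mem_closedBall_zero_iff] at hζ
    exact (hQ.continuous.continuousAt.comp (hγd ζ hζ).continuousAt).continuousWithinAt
  have hsub := submean_of_compare (k := k) hkc (by
    intro K hK1 hK2 hK3
    have hm : ContinuousOn (fun y => k y + -(K y).re) (closedBall 0 1) :=
      hkc.add (Complex.continuous_re.comp_continuousOn hK1).neg
    have := max_principle2 hm (fun y hy => by linarith [hK3 y hy]) (fun y hy => by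
      have hKev : ∀ᶠ w in 𝓝 y, DifferentiableAt ℂ K w := by
        filter_upwards [isOpen_ball.mem_nhds (mem_ball_zero_iff.mpr hy)] with w hw
        exact hK2.differentiableAt (isOpen_ball.mem_nhds hw)
      have hre : ContDiffAt ℝ 2 (fun y : ℂ => y.re) (K y) := Complex.reCLM.contDiff.contDiffAt
      have hγev : ∀ᶠ w in 𝓝 y, DifferentiableAt ℂ γ w := by
        filter_upwards [isOpen_ball.mem_nhds (mem_ball_zero_iff.mpr hy)] with w hw
        exact hγd w (mem_ball_zero_iff.1 hw).le
      have k1 := (SD_comp (γ := γ) (ζ := y) hQ.contDiffAt hγev 1).add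
        (SD_comp (γ := K) hre hKev 1).neg
      have k2 := (SD_comp (γ := γ) (ζ := y) hQ.contDiffAt hγev Complex.I).add
        (SD_comp (γ := K) hre hKev Complex.I).neg
      refine ⟨_, ?_, ?_, _, _, k1, k2, ?_⟩
      · exact Eventually.of_forall fun w => le_refl _
      · rfl
      · have hf' : fderiv ℝ (fun y : ℂ => y.re) = fun _ => Complex.reCLM := by
          ext1 y
          exact Complex.reCLM.fderiv
        have hf2 : fderiv ℝ (fun _ : ℂ => Complex.reCLM) (K y) = 0 :=
          (hasFDerivAt_const Complex.reCLM (K y)).fderiv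
        rw [hf', hf2]
        have h4 := bil_rot (fderiv ℝ (fderiv ℝ Q) (γ y)) (deriv γ y)
        have h5 := hLap (γ y)
        unfold Pool.Agent.W722.Cq.Lap at h5
        have h6 : 0 ≤ Complex.normSq (deriv γ y) *
            (fderiv ℝ (fderiv ℝ Q) (γ y) 1 1 +
              fderiv ℝ (fderiv ℝ Q) (γ y) Complex.I Complex.I) :=
          mul_nonneg (Complex.normSq_nonneg _) h5
        simp only [_root_.zero_apply, one_smul, one_pow, Complex.I_sq, neg_smul, map_neg,
          smul_eq_mul, one_mul, neg_mul]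
        linarith) (z := 0) (by simp)
    linarith)
  rw [Real.circleAverage_def, smul_eq_mul]
  have h0 : k 0 = Q (g a) := by simp [hk, hγ]
  rw [h0] at hsub
  have hc : ∀ θ : ℝ, circleMap a s θ = a + s * Complex.exp (θ * Complex.I) := by
    intro θ
    rfl
  simpa only [hc] using hsub

end Pool.Agent.W965.CQ
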