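import Pool.Agent.W810.KP.Defs

/-!
# Project KP (MP_5f99b0_pr), task RING0: the sum over very close pairs in a ring
-/

namespace Pool.Agent.W965.KPRing0

open H974 H12S H973N Finset Pool.Agent.W810.KP

/-- number of edges near a given edge -/
theorem card_near3 (e : Edg) (T : Finset Edg) :
    (T.filter (fun g => dst e g ≤ 3)).card ≤ 98 := by
  have h1 : T.filter (fun g => dst e g ≤ 3) ⊆
      (Finset.Icc (e.1 - 3) (e.1 + 3)) ×ˢ
        ((Finset.Icc (e.2.1 - 3) (e.2.1 + 3)) ×ˢ (Finset.univ : Finset Bool)) := by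
    intro g hg
    rw [Finset.mem_filter] at hg
    obtain ⟨⟨h1, h2⟩, h3, h4⟩ := NP.dst_le hg.2
    rw [Finset.mem_product, Finset.mem_product, Finset.mem_Icc, Finset.mem_Icc]
    exact ⟨⟨by linarith, by linarith⟩, ⟨by linarith, by linarith⟩, Finset.mem_univ _⟩
  have h2 := Finset.card_le_card h1
  rw [Finset.card_product, Finset.card_product, Int.card_Icc, Int.card_Icc, Finset.card_univ,
    Fintype.card_bool] at h2
  have e1 : ∀ z : ℤ, (z + 3 + 1 - (z - 3)).toNat = 7 := by
    intro z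
    rw [show z + 3 + 1 - (z - 3) = 7 by ring]
    rfl
  rw [e1, e1] at h2
  exact h2

/-- number of edges with a given base point -/
theorem card_fib (G : Finset Edg) (t : ℤ × ℤ) :
    (G.filter (fun e => bp e = t)).card ≤ 2 := by
  have h1 : G.filter (fun e => bp e = t) ⊆
      ({(t.1, t.2, true), (t.1, t.2, false)} : Finset Edg) := by
    intro g hg
    rw [Finset.mem_filter] at hg
    obtain ⟨x, y, _ | _⟩ := g
    · have := hg.2
      subst this
      simp [bp]
    · have := hg.2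
      subst this
      simp [bp]
  exact (Finset.card_le_card h1).trans Finset.card_le_two

/-- number of base points -/
theorem card_bps (β : Edg) (L : ℕ) (hL : 1 ≤ L) (G : Finset Edg)
    (hG : ∀ g ∈ G, dst β g ≤ 128 * L) :
    Real.sqrt ((G.image bp).card : ℝ) ≤ 300 * (L : ℝ) := by
  have h1 : G.image bp ⊆ (Finset.Icc (β.1 - 128 * L) (β.1 + 128 * L)) ×ˢ
      (Finset.Icc (β.2.1 - 128 * L) (β.2.1 + 128 * L)) := by
    intro t ht
    rw [Finset.mem_image] at ht
    obtain ⟨g, hg, rfl⟩ := ht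
    obtain ⟨⟨h1, h2⟩, h3, h4⟩ := NP.dst_le (hG g hg)
    rw [Finset.mem_product, Finset.mem_Icc, Finset.mem_Icc]
    unfold bp
    simp only
    refine ⟨⟨?_, ?_⟩, ?_, ?_⟩ <;> linarith
  have h2 := Finset.card_le_card h1
  rw [Finset.card_product, Int.card_Icc, Int.card_Icc] at h2
  have e1 : ∀ z : ℤ, (z + 128 * (L:ℤ) + 1 - (z - 128 * (L:ℤ))).toNat = 256 * L + 1 := by
    intro z
    rw [show z + 128 * (L : ℤ) + 1 - (z - 128 * L) = ((256 * L + 1 : ℕ) : ℤ) by push_cast; ring]
    exact Int.toNat_natCast _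
  rw [e1, e1] at h2
  have h3 : (256 * L + 1) * (256 * L + 1) ≤ (300 * L) ^ 2 := by nlinarith
  have h4 : ((G.image bp).card : ℝ) ≤ (300 * (L : ℝ)) ^ 2 := by exact_mod_cast h2.trans h3
  rw [Real.sqrt_le_left (by positivity)]
  exact h4

theorem main (hb : S_blk) (hp : S_pair0) : S_ring0 := by
  classical
  intro κ hκ
  obtain ⟨C, hC, hCC⟩ := hb κ hκ 61 (by norm_num)
  refine ⟨2 * 98 * (C * 300), by positivity, ?_⟩
  intro q n hW hn S U β j r hr1 hrj hβ hU
  have h0 : 0 ≤ q := hW.q0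
  have h1 : q ≤ 1 := hW.q1
  have hOk : Ok (fun _ : Edg => q) := hW.ok
  set L : ℕ := 2 ^ j with hL
  have hLz : (2 : ℤ) ^ j = (L : ℤ) := by rw [hL]; push_cast; rfl
  have hLr : (2 : ℝ) ^ j = (L : ℝ) := by rw [hL]; push_cast; rfl
  have hL1 : 1 ≤ L := Nat.one_le_two_pow
  have hL1z : (1 : ℤ) ≤ (L : ℤ) := by exact_mod_cast hL1
  rw [hLr]
  simp only [hLz]
  set B : Finset Edg := U.filter (fun g => 64 * (L : ℤ) < dst β g ∧ dst β g ≤ 128 * (L : ℤ))
    with hBdef
  set I : ℤ × ℤ → ℝ := fun t => PQ q S (Bf (Con β) (blk (((1:ℕ):ℤ) * t.1, ((1:ℕ):ℤ) * t.2) 10))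
    with hIdef
  have hI0 : ∀ t, 0 ≤ I t := fun t => Pr_nonneg hOk _ _
  -- the pair bound
  have pair : ∀ g ∈ B, ∀ h ∈ U, g ≠ h → dst g h ≤ 3 → PQ q S (T3 β g h) ≤ I (bp g) := by
    intro g hg h hh hne hd
    rw [hBdef, Finset.mem_filter] at hg
    obtain ⟨⟨p1, p2⟩, p3, p4⟩ := NP.dst_le hd
    have hgb : g ∈ blk (((1:ℕ):ℤ) * (bp g).1, ((1:ℕ):ℤ) * (bp g).2) 10 := by
      unfold blk bp
      apply NP.RE_strong
      refine ⟨⟨?_, ?_⟩, ?_, ?_⟩ <;> simp only <;> push_cast <;> linarith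
    have hhb : h ∈ blk (((1:ℕ):ℤ) * (bp g).1, ((1:ℕ):ℤ) * (bp g).2) 10 := by
      unfold blk bp
      apply NP.RE_strong
      refine ⟨⟨?_, ?_⟩, ?_, ?_⟩ <;> simp only <;> push_cast <;> linarith
    have hβb : β ∉ blk (((1:ℕ):ℤ) * (bp g).1, ((1:ℕ):ℤ) * (bp g).2) 10 := by
      intro hcon
      unfold blk bp at hcon
      obtain ⟨⟨r1, r2⟩, r3, r4⟩ := NP.RE_weak hcon
      simp only at r1 r2 r3 r4
      push_cast at r1 r2 r3 r4
      have : dst β g ≤ 10 := by
        unfold dst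
        apply max_le <;> rw [abs_le] <;> constructor <;> linarith
      linarith [hg.2.1]
    exact hp q h0 h1 S β g h _ hβb hgb hhb hne
  -- inner sums
  have inner : ∀ g ∈ U, ∑ h ∈ U, ind (g ≠ h ∧ dst g h ≤ 3 ∧
      64 * (L : ℤ) < dst β g ∧ dst β g ≤ 128 * (L : ℤ)) * PQ q S (T3 β g h) ≤
      if 64 * (L : ℤ) < dst β g ∧ dst β g ≤ 128 * (L : ℤ) then 98 * I (bp g) else 0 := by
    intro g hg
    by_cases hr : 64 * (L : ℤ) < dst β g ∧ dst β g ≤ 128 * (L : ℤ)
    · rw [if_pos hr]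
      have hgB : g ∈ B := by rw [hBdef, Finset.mem_filter]; exact ⟨hg, hr⟩
      calc ∑ h ∈ U, ind (g ≠ h ∧ dst g h ≤ 3 ∧
            64 * (L : ℤ) < dst β g ∧ dst β g ≤ 128 * (L : ℤ)) * PQ q S (T3 β g h)
          ≤ ∑ h ∈ U, if dst g h ≤ 3 then I (bp g) else 0 := by
            refine Finset.sum_le_sum fun h hh => ?_
            by_cases hc : g ≠ h ∧ dst g h ≤ 3 ∧
              64 * (L : ℤ) < dst β g ∧ dst β g ≤ 128 * (L : ℤ)
            · rw [ind_of hc, one_mul, if_pos hc.2.1]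
              exact pair g hgB h hh hc.1 hc.2.1
            · rw [ind_not_of hc, zero_mul]
              split_ifs
              · exact hI0 _
              · exact le_rfl
        _ = ((U.filter (fun h => dst g h ≤ 3)).card : ℝ) * I (bp g) := by
            rw [← Finset.sum_filter, Finset.sum_const, nsmul_eq_mul]
        _ ≤ 98 * I (bp g) := by
            apply mul_le_mul_of_nonneg_right _ (hI0 _)
            exact_mod_cast card_near3 g U
    · rw [if_neg hr]
      apply le_of_eq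
      apply Finset.sum_eq_zero
      intro h _
      rw [ind_not_of (fun hc => hr hc.2.2), zero_mul]
  have step1 : ∑ g ∈ U, ∑ h ∈ U, ind (g ≠ h ∧ dst g h ≤ 3 ∧
      64 * (L : ℤ) < dst β g ∧ dst β g ≤ 128 * (L : ℤ)) * PQ q S (T3 β g h) ≤
      ∑ g ∈ B, 98 * I (bp g) := by
    refine (Finset.sum_le_sum inner).trans ?_
    rw [hBdef, Finset.sum_filter]
  have step2 : ∑ g ∈ B, 98 * I (bp g) ≤ ∑ t ∈ B.image bp, 2 * 98 * I t := by
    rw [← Finset.sum_fiberwise_of_maps_to (s := B) (t := B.image bp) (g := bp)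
      (fun g hg => Finset.mem_image_of_mem _ hg)]
    refine Finset.sum_le_sum fun t _ => ?_
    calc ∑ g ∈ B.filter (fun g => bp g = t), 98 * I (bp g)
        = ∑ g ∈ B.filter (fun g => bp g = t), 98 * I t := by
          refine Finset.sum_congr rfl fun g hg => ?_
          rw [(Finset.mem_filter.mp hg).2]
      _ = ((B.filter (fun g => bp g = t)).card : ℝ) * (98 * I t) := by
          rw [Finset.sum_const, nsmul_eq_mul]
      _ ≤ 2 * (98 * I t) := by
          apply mul_le_mul_of_nonneg_right _ (mul_nonneg (by norm_num) (hI0 _))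
          exact_mod_cast card_fib B t
      _ = 2 * 98 * I t := by ring
  have step3 : ∑ t ∈ B.image bp, I t ≤ C * a4 q r * Real.sqrt ((B.image bp).card : ℝ) := by
    refine hCC q n hW S β 1 10 r (B.image bp) le_rfl (by norm_num) (by omega) (by norm_num) hr1 hβ
      ?_ ?_
    · intro t ht
      rw [Finset.mem_image] at ht
      obtain ⟨g, hg, rfl⟩ := ht
      rw [hBdef, Finset.mem_filter] at hg
      refine Finset.Subset.trans ?_ (hU g hg.1)
      unfold blk
      apply RE_subset <;> push_cast <;> linarith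
    · intro t ht
      rw [Finset.mem_image] at ht
      obtain ⟨g, hg, rfl⟩ := ht
      rw [hBdef, Finset.mem_filter] at hg
      have hrz : (r : ℤ) ≤ (L : ℤ) := by exact_mod_cast hrj
      have h2 := hg.2.1
      unfold dst at h2
      unfold bp
      simp only
      push_cast
      rw [one_mul, one_mul]
      rcases lt_max_iff.mp h2 with h3 | h3
      · left; linarith
      · right; linarith
  have ha4 : 0 ≤ a4 q r := add_nonneg (Pr_nonneg hOk _ _) (Pr_nonneg hOk _ _)
  have step4 : Real.sqrt ((B.image bp).card : ℝ) ≤ 300 * (L : ℝ) := by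
    apply card_bps β L hL1
    intro g hg
    rw [hBdef, Finset.mem_filter] at hg
    exact hg.2.2
  calc _ ≤ ∑ g ∈ B, 98 * I (bp g) := step1
    _ ≤ ∑ t ∈ B.image bp, 2 * 98 * I t := step2
    _ = 2 * 98 * ∑ t ∈ B.image bp, I t := by rw [Finset.mul_sum]
    _ ≤ 2 * 98 * (C * a4 q r * Real.sqrt ((B.image bp).card : ℝ)) := by
        apply mul_le_mul_of_nonneg_left step3 (by norm_num)
    _ ≤ 2 * 98 * (C * a4 q r * (300 * (L : ℝ))) := by
        apply mul_le_mul_of_nonneg_left _ (by norm_num)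
        apply mul_le_mul_of_nonneg_left step4
        exact mul_nonneg hC.le ha4
    _ = 2 * 98 * (C * 300) * a4 q r * (L : ℝ) := by ring

end Pool.Agent.W965.KPRing0
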